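import Pool.Agent.W677.MarR
import Pool.Agent.W677.MarP
import Pool.Agent.W677.MarF3

/-!
# MP_16b0ee_an: the strong Marshall bound for the whole class `Σ` and all `a ≤ 1/15`

For every `0 < a ≤ 1/15` the integral of the question is at most `800`, for all `R > 1` and all
`ψ` in `Σ`. For `1/15 ≤ a` it is at most `800 (R² / (R² - 1)) ^ (a - 1/15)`. Moreover, for every
complex number `t`, the mean of `exp (Re (conj t h))` is at most
`exp (1/64) (R² / (R² - 1)) ^ (3.74 |t|²)`.

The proof: for `|t| ≤ 1/8` the mean is compared with an explicit solution of the differential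
inequality which comes from the sharp bound of `ψ'' / ψ'`; for `|t| ≥ 1/8` one uses Goluzin's
inequality `|h| ≤ log (R² / (R² - 1))` for the part of `t` which exceeds `1/8`. The bounds are
then integrated in `t` against a Gaussian.
-/

set_option autoImplicit false

namespace Pool.Agent.Results.MP_16b0ee_an.WholeClass

open Complex Metric Set Filter Topology MeasureTheory
open Pool.Agent.W677.Mar

/-- the correction of the comparison function -/
noncomputable def ww (x : ℝ) : ℝ := 77 / 250 * (Real.log 11 - Real.log (11 - 10 * x))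

/-- the logarithmic derivative of the comparison function -/
noncomputable def vv (x : ℝ) : ℝ := 93 / 25 + 77 / 25 * (1 - x) / (11 - 10 * x)

theorem ww_zero : ww 0 = 0 := by simp [ww]

theorem ww_nonneg {x : ℝ} (h0 : 0 ≤ x) (h1 : x < 1) : 0 ≤ ww x := by
  unfold ww
  have := Real.log_le_log (by linarith : (0 : ℝ) < 11 - 10 * x) (by linarith : 11 - 10 * x ≤ 11)
  apply mul_nonneg (by norm_num)
  linarith

theorem ww_le {x : ℝ} (h1 : x < 1) : ww x ≤ 1 := by
  unfold ww
  have h2 : 0 ≤ Real.log (11 - 10 * x) := Real.log_nonneg (by linarith)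
  have h3 : Real.log 11 ≤ 3 := by
    rw [Real.log_le_iff_le_exp (by norm_num)]
    have h4 := Real.exp_one_gt_d9
    have h5 : Real.exp 3 = Real.exp 1 * Real.exp 1 * Real.exp 1 := by
      rw [← Real.exp_add, ← Real.exp_add]; norm_num
    rw [h5]
    nlinarith [mul_pos (Real.exp_pos 1) (Real.exp_pos 1)]
  nlinarith

theorem ww_deriv {x : ℝ} (h1 : x < 1) : HasDerivAt ww (77 / 25 / (11 - 10 * x)) x := by
  have h : HasDerivAt (fun x : ℝ => 11 - 10 * x) (-10) x := by
    have := ((hasDerivAt_id x).const_mul (10 : ℝ)).const_sub 11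
    simpa using this
  have hne : 11 - 10 * x ≠ 0 := by linarith
  have h2 := ((h.log hne).const_sub (Real.log 11)).const_mul (77 / 250 : ℝ)
  refine h2.congr_deriv ?_
  field_simp
  norm_num

theorem vv_nonneg {x : ℝ} (h1 : x < 1) : 0 ≤ vv x := by
  unfold vv
  have : 0 ≤ 77 / 25 * (1 - x) / (11 - 10 * x) := div_nonneg (by linarith) (by linarith)
  linarith

theorem vv_deriv {x : ℝ} (h1 : x < 1) : HasDerivAt vv (-(77 / 25) / (11 - 10 * x) ^ 2) x := by
  have h : HasDerivAt (fun x : ℝ => 11 - 10 * x) (-10) x := by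
    have := ((hasDerivAt_id x).const_mul (10 : ℝ)).const_sub 11
    simpa using this
  have h' : HasDerivAt (fun x : ℝ => 77 / 25 * (1 - x)) (-(77 / 25)) x := by
    have := ((hasDerivAt_id x).const_sub (1 : ℝ)).const_mul (77 / 25 : ℝ)
    simpa using this
  have hne : 11 - 10 * x ≠ 0 := by linarith
  refine ((h'.div h hne).const_add (93 / 25)).congr_deriv ?_
  congr 1
  ring

theorem sq_exp_d (s : ℝ) : HasDerivAt (fun s : ℝ => Real.exp s ^ 2) (2 * Real.exp s ^ 2) s := by
  have := (Real.hasDerivAt_exp s).pow 2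
  refine this.congr_deriv ?_
  push_cast
  ring

theorem sq_exp_lt {s : ℝ} (hs : s < 0) : Real.exp s ^ 2 < 1 := by
  have h1 : Real.exp s < 1 := Real.exp_lt_one_iff.2 hs
  have h2 := Real.exp_pos s
  nlinarith

theorem phi_d {s : ℝ} (hs : s < 0) :
    HasDerivAt (fun s : ℝ => 93 / 25 * lam (Real.exp s ^ 2) + ww (Real.exp s ^ 2))
      (vv (Real.exp s ^ 2) * (2 * Real.exp s ^ 2 / (1 - Real.exp s ^ 2))) s := by
  have hx := sq_exp_lt hs
  have h1 := (ww_deriv hx).comp s (sq_exp_d s)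
  have h2 := ((lam_exp_d hs).const_mul (93 / 25)).add h1
  refine h2.congr_deriv ?_
  unfold vv
  have hne : 1 - Real.exp s ^ 2 ≠ 0 := by linarith
  have hne2 : 11 - 10 * Real.exp s ^ 2 ≠ 0 := by linarith
  field_simp

theorem vv_d {s : ℝ} (hs : s < 0) : HasDerivAt (fun s : ℝ => vv (Real.exp s ^ 2))
    (-(77 / 25) / (11 - 10 * Real.exp s ^ 2) ^ 2 * (2 * Real.exp s ^ 2)) s := by
  have h := (vv_deriv (sq_exp_lt hs)).comp s (sq_exp_d s)
  exact h

/-- the inequality for the comparison function -/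
theorem key_ineq {x τ u : ℝ} (h0 : 0 ≤ x) (h1 : x < 1) (hτ8 : τ ≤ 1 / 8)
    (hu : u ≤ τ) : 2 * u * x * vv x + (4 - x) ≤
      τ ^ 2 * vv x ^ 2 * x + -(77 / 25) / (11 - 10 * x) ^ 2 * x * (1 - x) + vv x := by
  obtain ⟨p, hp⟩ : ∃ p, p = 1 / (11 - 10 * x) := ⟨_, rfl⟩
  have hq : 0 < 11 - 10 * x := by linarith
  have hne : 11 - 10 * x ≠ 0 := hq.ne'
  have hp0 : 0 < p := by rw [hp]; positivity
  have hp1 : p ≤ 1 := by
    rw [hp, div_le_one hq]; linarith
  have h11 : (11 - 10 * x) * p = 1 := by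
    rw [hp]; field_simp
  have hy : (1 - x) * p = (1 - p) / 10 := by linarith
  have hv : vv x = 1007 / 250 - 77 / 250 * p := by
    unfold vv
    have : 77 / 25 * (1 - x) / (11 - 10 * x) = 77 / 25 * ((1 - x) * p) := by
      rw [hp]; ring
    rw [this, hy]
    ring
  have hv4 : vv x ≤ 4 := by
    unfold vv
    have : 77 / 25 * (1 - x) / (11 - 10 * x) ≤ 7 / 25 := by
      rw [div_le_iff₀ hq]; linarith
    linarith
  have hv0 : 0 ≤ vv x := vv_nonneg h1
  have e1 : -(77 / 25) / (11 - 10 * x) ^ 2 * x * (1 - x) = x * (-(77 / 25) * (1 - x) * p ^ 2) := by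
    rw [hp, div_pow, one_pow]; ring
  have e2 : -(77 / 25) * (1 - x) * p ^ 2 = -(77 / 250) * (1 - p) * p := by
    have : -(77 / 25) * (1 - x) * p ^ 2 = -(77 / 25) * ((1 - x) * p) * p := by ring
    rw [this, hy]; ring
  -- `vv x - 4` is a multiple of `x`
  have e3 : vv x - 4 = x * (-(7 / 25) * p) := by
    have hx : x * p = (11 * p - 1) / 10 := by linarith
    have : x * (-(7 / 25) * p) = -(7 / 25) * (x * p) := by ring
    rw [this, hx, hv]; ring
  rw [e1, e2]
  have h5 : 2 * u * x * vv x ≤ 2 * τ * x * vv x := by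
    have : 0 ≤ x * vv x := mul_nonneg h0 hv0
    nlinarith
  have h6 : x * (vv x / 4 - vv x ^ 2 / 64) ≥ x * (2 * τ * vv x - τ ^ 2 * vv x ^ 2) := by
    apply mul_le_mul_of_nonneg_left _ h0
    have : 0 ≤ (1 / 8 - τ) * vv x * (2 - (1 / 8 + τ) * vv x) := by
      apply mul_nonneg (mul_nonneg (by linarith) hv0)
      have : (1 / 8 + τ) * vv x ≤ 1 / 4 * 4 := by
        apply mul_le_mul (by linarith) hv4 hv0 (by norm_num)
      linarith
    nlinarith
  have h7 : 0 ≤ x * (1 - vv x / 4 + vv x ^ 2 / 64 - 7 / 25 * p - 77 / 250 * (1 - p) * p) := by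
    apply mul_nonneg h0
    rw [hv]
    nlinarith [sq_nonneg (p - 8882 / 10000)]
  nlinarith

section

variable {Y H : ℂ → ℂ}

theorem exp_small (S : Sg Y H) (t : ℂ) (ht : ‖t‖ ≤ 1 / 8) {r : ℝ} (hr0 : 0 < r) (hr1 : r < 1) :
    ∫ θ in (0 : ℝ)..(2 * Real.pi), Real.exp ((starRingEnd ℂ) t * H (pt r θ)).re ≤
      2 * Real.pi * Real.exp (‖t‖ ^ 2 * (93 / 25 * lam (r ^ 2) + ww (r ^ 2))) := by
  have hpi := Real.pi_pos
  have hK := kd_of (R₁ := 1) one_pos (S.dH.const_mul ((starRingEnd ℂ) t))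
  rw [Real.log_one] at hK
  set K : ℂ → ℂ := fun ζ => (starRingEnd ℂ) t * H (Complex.exp ζ) with hKd
  set K1 : ℂ → ℂ := fun ζ => Complex.exp ζ * deriv (fun w => (starRingEnd ℂ) t * H w) (Complex.exp ζ)
    with hK1d
  have hmem : ∀ s θ : ℝ, s < 0 → pt (Real.exp s) θ ∈ ball (0 : ℂ) 1 := by
    intro s θ hs
    rw [mem_ball_zero_iff, norm_pt _ θ (Real.exp_pos s).le]
    exact Real.exp_lt_one_iff.2 hs
  have hK1e : ∀ s θ : ℝ, s < 0 → K1 (zt s θ) =
      (starRingEnd ℂ) t * (pt (Real.exp s) θ * deriv H (pt (Real.exp s) θ)) := by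
    intro s θ hs
    simp only [hK1d]
    rw [exp_zt, deriv_const_mul_field]
    ring
  have hKe : ∀ s θ : ℝ, K (zt s θ) = (starRingEnd ℂ) t * H (pt (Real.exp s) θ) := by
    intro s θ
    simp only [hKd]
    rw [exp_zt]
  -- the functions
  set G : ℝ → ℝ := fun s => ∫ θ in (0 : ℝ)..(2 * Real.pi), 1 * Real.exp (K (zt s θ)).re with hG
  set G1 : ℝ → ℝ := fun s => ∫ θ in (0 : ℝ)..(2 * Real.pi), 1 * (Real.exp (K (zt s θ)).re * (K1 (zt s θ)).re)
    with hG1
  set G2 : ℝ → ℝ := fun s => (∫ θ in (0 : ℝ)..(2 * Real.pi), 1 * (Real.exp (K (zt s θ)).re * ‖K1 (zt s θ)‖ ^ 2)) -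
    ∫ θ in (0 : ℝ)..(2 * Real.pi), 0 * Real.exp (K (zt s θ)).re with hG2
  obtain ⟨κ, hκ⟩ : ∃ κ, κ = ‖t‖ ^ 2 := ⟨_, rfl⟩
  have hκ0 : 0 ≤ κ := by rw [hκ]; positivity
  set x : ℝ → ℝ := fun s => Real.exp s ^ 2 with hx
  set X : ℝ → ℝ := fun s => 2 * x s / (1 - x s) with hX
  set F : ℝ → ℝ := fun s => Real.exp (κ * (93 / 25 * lam (x s) + ww (x s))) with hF
  set F1 : ℝ → ℝ := fun s => F s * (κ * (vv (x s) * X s)) with hF1
  set F2 : ℝ → ℝ := fun s => F s * (κ * (vv (x s) * X s)) * (κ * (vv (x s) * X s)) +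
    F s * (κ * (-(77 / 25) / (11 - 10 * x s) ^ 2 * (2 * x s) * X s +
      vv (x s) * (4 * x s / (1 - x s) ^ 2))) with hF2
  set E : ℝ → ℝ := fun s => Real.exp (-(2 * t.re) * lam (x s)) with hE
  have hx0 : ∀ s, 0 < x s := fun s => by simp only [hx]; positivity
  have hx1 : ∀ s, s < 0 → x s < 1 := by
    intro s hs
    have h1 : Real.exp s < 1 := Real.exp_lt_one_iff.2 hs
    have h2 := Real.exp_pos s
    simp only [hx]
    nlinarith
  have dG : ∀ s, s < 0 → HasDerivAt G (G1 s) s := fun s hs => en1 hK wd_one hs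
  have dG1 : ∀ s, s < 0 → HasDerivAt G1 (G2 s) s := fun s hs => en2 hK wd_one hs
  have dF : ∀ s, s < 0 → HasDerivAt F (F1 s) s := fun s hs => ((phi_d hs).const_mul κ).exp
  have dF1 : ∀ s, s < 0 → HasDerivAt F1 (F2 s) s := fun s hs =>
    (dF s hs).fun_mul (((vv_d hs).fun_mul (xx_d hs)).const_mul κ)
  have dE : ∀ s, s < 0 → HasDerivAt E (-(2 * t.re * X s * E s)) s := by
    intro s hs
    refine ((lam_exp_d hs).const_mul (-(2 * t.re))).exp.congr_deriv ?_
    simp only [hE, hX, hx]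
    ring
  have hF0 : ∀ s, 0 < F s := fun s => Real.exp_pos _
  have hE0 : ∀ s, 0 < E s := fun s => Real.exp_pos _
  have hX0 : ∀ s, s < 0 → 0 ≤ X s := by
    intro s hs
    have h1 := hx0 s
    have h2 := hx1 s hs
    simp only [hX]
    exact div_nonneg (by linarith) (by linarith)
  have hGn : ∀ s, 0 ≤ G s := by
    intro s
    apply intervalIntegral.integral_nonneg (by positivity)
    intro θ _
    positivity
  -- continuity in the angle
  have cc : ∀ {f : ℂ → ℂ} {s : ℝ}, s < 0 → ContinuousOn f {ζ : ℂ | ζ.re < 0} →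
      Continuous fun θ : ℝ => f (zt s θ) := by
    intro f s hs hf
    apply hf.comp_continuous (zt_cont.comp (continuous_const.prodMk continuous_id))
    intro θ
    show (zt s θ).re < 0
    rw [zt_re]
    exact hs
  -- the differential inequality for `G`
  have hGi : ∀ s, s < 0 → G2 s ≤ 2 * t.re * X s * G1 s +
      ‖t‖ ^ 2 * ((16 * x s - 4 * x s ^ 2) / (1 - x s) ^ 2) * G s := by
    intro s hs
    have c0 := cc hs (kcK hK)
    have c1 := cc hs (kcK1 hK)
    have ce : Continuous fun θ : ℝ => Real.exp (K (zt s θ)).re :=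
      Real.continuous_exp.comp (continuous_re.comp c0)
    have hx1' := hx1 s hs
    have hm : ∫ θ in (0 : ℝ)..(2 * Real.pi), 1 * (Real.exp (K (zt s θ)).re * ‖K1 (zt s θ)‖ ^ 2) ≤
        ∫ θ in (0 : ℝ)..(2 * Real.pi),
          ((‖t‖ ^ 2 * ((16 * x s - 4 * x s ^ 2) / (1 - x s) ^ 2)) * (1 * Real.exp (K (zt s θ)).re) +
          ((2 * t.re * X s) * (1 * (Real.exp (K (zt s θ)).re * (K1 (zt s θ)).re)) -
          (2 * t.im * X s) * (Real.exp (K (zt s θ)).re * (K1 (zt s θ)).im))) := by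
      apply intervalIntegral.integral_mono_on (by positivity)
      · exact (continuous_const.mul (ce.mul (c1.norm.pow 2))).intervalIntegrable _ _
      · exact ((continuous_const.mul (continuous_const.mul ce)).add
          ((continuous_const.mul (continuous_const.mul (ce.mul (continuous_re.comp c1)))).sub
          (continuous_const.mul (ce.mul (continuous_im.comp c1))))).intervalIntegrable _ _
      · intro θ _
        have h1 := kb_sq S (hmem s θ hs)
        rw [norm_pt _ θ (Real.exp_pos s).le] at h1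
        obtain ⟨P, hP⟩ : ∃ P, P = pt (Real.exp s) θ * deriv H (pt (Real.exp s) θ) := ⟨_, rfl⟩
        have e1 := hK1e s θ hs
        rw [← hP] at h1 e1
        have e2 : ‖K1 (zt s θ)‖ ^ 2 = ‖t‖ ^ 2 * ‖P‖ ^ 2 := by
          rw [e1, norm_mul, RCLike.norm_conj, mul_pow]
        have e3 : ‖t‖ ^ 2 * P.re = t.re * (K1 (zt s θ)).re - t.im * (K1 (zt s θ)).im := by
          rw [e1, ← Complex.normSq_eq_norm_sq, Complex.normSq_apply]
          simp only [mul_re, mul_im, conj_re, conj_im]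
          ring
        have h2 := mul_le_mul_of_nonneg_left h1 (sq_nonneg ‖t‖)
        have e4 : ‖t‖ ^ 2 * ((16 * Real.exp s ^ 2 - 4 * (Real.exp s ^ 2) ^ 2) /
            (1 - Real.exp s ^ 2) ^ 2 + 4 * Real.exp s ^ 2 / (1 - Real.exp s ^ 2) * P.re) =
            ‖t‖ ^ 2 * ((16 * x s - 4 * x s ^ 2) / (1 - x s) ^ 2) +
            2 * X s * (‖t‖ ^ 2 * P.re) := by
          simp only [hX, hx]
          ring
        rw [e4, e3, ← e2] at h2
        have h3 := mul_le_mul_of_nonneg_left h2 (Real.exp_pos (K (zt s θ)).re).le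
        linarith
    have i1 : IntervalIntegrable (fun θ : ℝ => (‖t‖ ^ 2 * ((16 * x s - 4 * x s ^ 2) / (1 - x s) ^ 2)) *
        (1 * Real.exp (K (zt s θ)).re)) volume 0 (2 * Real.pi) :=
      (continuous_const.mul (continuous_const.mul ce)).intervalIntegrable _ _
    have i2 : IntervalIntegrable (fun θ : ℝ => (2 * t.re * X s) *
        (1 * (Real.exp (K (zt s θ)).re * (K1 (zt s θ)).re))) volume 0 (2 * Real.pi) :=
      (continuous_const.mul (continuous_const.mul (ce.mul (continuous_re.comp c1)))).intervalIntegrable _ _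
    have i3 : IntervalIntegrable (fun θ : ℝ => (2 * t.im * X s) *
        (Real.exp (K (zt s θ)).re * (K1 (zt s θ)).im)) volume 0 (2 * Real.pi) :=
      (continuous_const.mul (ce.mul (continuous_im.comp c1))).intervalIntegrable _ _
    have j1 : ∫ θ in (0 : ℝ)..(2 * Real.pi), (‖t‖ ^ 2 * ((16 * x s - 4 * x s ^ 2) / (1 - x s) ^ 2)) *
        (1 * Real.exp (K (zt s θ)).re) =
        (‖t‖ ^ 2 * ((16 * x s - 4 * x s ^ 2) / (1 - x s) ^ 2)) * G s :=
      intervalIntegral.integral_const_mul _ _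
    have j2 : ∫ θ in (0 : ℝ)..(2 * Real.pi), (2 * t.re * X s) *
        (1 * (Real.exp (K (zt s θ)).re * (K1 (zt s θ)).re)) = (2 * t.re * X s) * G1 s :=
      intervalIntegral.integral_const_mul _ _
    have j3 : ∫ θ in (0 : ℝ)..(2 * Real.pi), (2 * t.im * X s) *
        (Real.exp (K (zt s θ)).re * (K1 (zt s θ)).im) = 0 := by
      rw [intervalIntegral.integral_const_mul, en3 hK hs, mul_zero]
    rw [intervalIntegral.integral_add i1 (i2.sub i3), intervalIntegral.integral_sub i2 i3,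
      j1, j2, j3, sub_zero] at hm
    have h0 : ∫ θ in (0 : ℝ)..(2 * Real.pi), 0 * Real.exp (K (zt s θ)).re = 0 := by simp
    simp only [hG2, h0, sub_zero]
    linarith
  -- the differential inequality for `F`
  have hFi : ∀ s, s < 0 → 2 * t.re * X s * F1 s +
      ‖t‖ ^ 2 * ((16 * x s - 4 * x s ^ 2) / (1 - x s) ^ 2) * F s ≤ F2 s := by
    intro s hs
    have h1 := hx0 s
    have h2 := hx1 s hs
    have h3 := hF0 s
    have h4 : t.re ≤ ‖t‖ := re_le_norm t
    have hy : 0 < 1 - x s := by linarith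
    obtain ⟨τ, hτ⟩ : ∃ τ, τ = ‖t‖ := ⟨_, rfl⟩
    have hτ0 : 0 ≤ τ := hτ ▸ norm_nonneg t
    have hτ8 : τ ≤ 1 / 8 := hτ ▸ ht
    rw [← hτ] at h4 hκ ⊢
    have key : 2 * t.re * X s * (κ * (vv (x s) * X s)) +
        τ ^ 2 * ((16 * x s - 4 * x s ^ 2) / (1 - x s) ^ 2) ≤
        (κ * (vv (x s) * X s)) * (κ * (vv (x s) * X s)) +
        κ * (-(77 / 25) / (11 - 10 * x s) ^ 2 * (2 * x s) * X s +
          vv (x s) * (4 * x s / (1 - x s) ^ 2)) := by
      have h5 := key_ineq h1.le h2 hτ8 h4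
      have e1 : 2 * t.re * X s * (κ * (vv (x s) * X s)) +
          τ ^ 2 * ((16 * x s - 4 * x s ^ 2) / (1 - x s) ^ 2) =
          4 * x s * τ ^ 2 / (1 - x s) ^ 2 * (2 * t.re * x s * vv (x s) + (4 - x s)) := by
        simp only [hX]
        rw [hκ]
        field_simp
        ring
      have e2 : (κ * (vv (x s) * X s)) * (κ * (vv (x s) * X s)) +
          κ * (-(77 / 25) / (11 - 10 * x s) ^ 2 * (2 * x s) * X s +
            vv (x s) * (4 * x s / (1 - x s) ^ 2)) =
          4 * x s * τ ^ 2 / (1 - x s) ^ 2 * (τ ^ 2 * vv (x s) ^ 2 * x s +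
            -(77 / 25) / (11 - 10 * x s) ^ 2 * x s * (1 - x s) + vv (x s)) := by
        simp only [hX]
        rw [hκ]
        have hne : (1 - x s) ≠ 0 := hy.ne'
        have hne2 : (11 - 10 * x s) ≠ 0 := by linarith
        field_simp
        ring
      rw [e1, e2]
      exact mul_le_mul_of_nonneg_left h5 (by positivity)
    have := mul_le_mul_of_nonneg_left key h3.le
    simp only [hF1, hF2]
    linarith
  -- behaviour near the centre
  have hH : ∀ s θ : ℝ, s < 0 → ‖H (pt (Real.exp s) θ)‖ ≤ lam (x s) := by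
    intro s θ hs
    have := goluzin S (hmem s θ hs)
    rw [norm_pt _ θ (Real.exp_pos s).le] at this
    exact this
  have hKre : ∀ s θ : ℝ, s < 0 → (K (zt s θ)).re ≤ ‖t‖ * lam (x s) := by
    intro s θ hs
    rw [hKe]
    refine (re_le_norm _).trans ?_
    rw [norm_mul, RCLike.norm_conj]
    exact mul_le_mul_of_nonneg_left (hH s θ hs) (norm_nonneg t)
  have hGb : ∀ s, s < 0 → G s ≤ 2 * Real.pi * Real.exp (‖t‖ * lam (x s)) := by
    intro s hs
    have h1 : G s ≤ ∫ _θ in (0 : ℝ)..(2 * Real.pi), Real.exp (‖t‖ * lam (x s)) := by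
      apply intervalIntegral.integral_mono_on (by positivity)
      · exact (continuous_const.mul (Real.continuous_exp.comp
          (continuous_re.comp (cc hs (kcK hK))))).intervalIntegrable _ _
      · exact continuous_const.intervalIntegrable _ _
      · intro θ _
        rw [one_mul]
        exact Real.exp_le_exp.2 (hKre s θ hs)
    rw [intervalIntegral.integral_const, smul_eq_mul, sub_zero] at h1
    exact h1
  have hlim : Tendsto (fun s : ℝ => x s) atBot (𝓝 0) := by
    have := (Real.tendsto_exp_atBot).pow 2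
    rwa [zero_pow two_ne_zero] at this
  have hlamc : Tendsto (fun s : ℝ => lam (x s)) atBot (𝓝 0) := by
    have h1 : ContinuousAt lam 0 := (lam_deriv (by norm_num : (0 : ℝ) < 1)).continuousAt
    have h2 := h1.tendsto.comp hlim
    rwa [lam_zero] at h2
  have hwwc : Tendsto (fun s : ℝ => ww (x s)) atBot (𝓝 0) := by
    have h1 : ContinuousAt ww 0 := (ww_deriv (by norm_num : (0 : ℝ) < 1)).continuousAt
    have h2 := h1.tendsto.comp hlim
    rwa [ww_zero] at h2
  have hsmall : ∀ a, a < Real.log (1 / 2) → (G1 a * F a - G a * F1 a) * E a ≤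
      (2 * Real.pi * (Real.exp (‖t‖ * lam (x a)) * (‖t‖ * 12 * Real.exp a)) * F a) * E a := by
    intro a ha
    have ha0 : a < 0 := ha.trans (Real.log_neg (by norm_num) (by norm_num))
    have hea : Real.exp a < 1 / 2 := by
      have := Real.exp_lt_exp.2 ha
      rwa [Real.exp_log (by norm_num)] at this
    apply mul_le_mul_of_nonneg_right _ (hE0 a).le
    have h1 : 0 ≤ G a * F1 a := mul_nonneg (hGn a)
      (mul_nonneg (hF0 a).le (mul_nonneg hκ0 (mul_nonneg (vv_nonneg (hx1 a ha0)) (hX0 a ha0))))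
    have h2 : G1 a ≤ 2 * Real.pi * (Real.exp (‖t‖ * lam (x a)) * (‖t‖ * 12 * Real.exp a)) := by
      have h3 : G1 a ≤ ∫ _θ in (0 : ℝ)..(2 * Real.pi),
          (Real.exp (‖t‖ * lam (x a)) * (‖t‖ * 12 * Real.exp a)) := by
        apply intervalIntegral.integral_mono_on (by positivity)
        · exact (continuous_const.mul ((Real.continuous_exp.comp
            (continuous_re.comp (cc ha0 (kcK hK)))).mul
            (continuous_re.comp (cc ha0 (kcK1 hK))))).intervalIntegrable _ _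
        · exact continuous_const.intervalIntegrable _ _
        · intro θ _
          rw [one_mul]
          have h4 : (K1 (zt a θ)).re ≤ ‖t‖ * 12 * Real.exp a := by
            refine (re_le_norm _).trans ?_
            rw [hK1e a θ ha0, norm_mul, norm_mul, RCLike.norm_conj,
              norm_pt _ θ (Real.exp_pos a).le]
            have h5 := H_bloch S (hmem a θ ha0)
            rw [norm_pt _ θ (Real.exp_pos a).le] at h5
            have h6 := norm_nonneg (deriv H (pt (Real.exp a) θ))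
            have h7 : ‖deriv H (pt (Real.exp a) θ)‖ ≤ 12 := by nlinarith
            have h8 := Real.exp_pos a
            have h9 := norm_nonneg t
            calc ‖t‖ * (Real.exp a * ‖deriv H (pt (Real.exp a) θ)‖)
                ≤ ‖t‖ * (Real.exp a * 12) := by gcongr
              _ = _ := by ring
          have h5 : Real.exp (K (zt a θ)).re ≤ Real.exp (‖t‖ * lam (x a)) :=
            Real.exp_le_exp.2 (hKre a θ ha0)
          have h6 : 0 ≤ ‖t‖ * 12 * Real.exp a := by positivity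
          calc Real.exp (K (zt a θ)).re * (K1 (zt a θ)).re
              ≤ Real.exp (K (zt a θ)).re * (‖t‖ * 12 * Real.exp a) :=
                mul_le_mul_of_nonneg_left h4 (Real.exp_pos _).le
            _ ≤ _ := mul_le_mul_of_nonneg_right h5 h6
      rw [intervalIntegral.integral_const, smul_eq_mul, sub_zero] at h3
      exact h3
    have h3 := mul_le_mul_of_nonneg_right h2 (hF0 a).le
    linarith
  have hwneg : ∀ s, s < 0 → G1 s * F s - G s * F1 s ≤ 0 := by
    intro s hs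
    have h1 : ∀ a, a ≤ s → (G1 s * F s - G s * F1 s) * E s ≤ (G1 a * F a - G a * F1 a) * E a := by
      intro a ha
      apply ode1 (G := G) (G1 := G1) (G2 := G2) (S := F) (S1 := F1) (S2 := F2) (E := E)
        (p := fun s => 2 * t.re * X s)
        (q := fun s => ‖t‖ ^ 2 * ((16 * x s - 4 * x s ^ 2) / (1 - x s) ^ 2)) (a := a) (b := s)
      · exact fun u hu => dG u (hu.2.trans_lt hs)
      · exact fun u hu => dG1 u (hu.2.trans_lt hs)
      · exact fun u hu => dF u (hu.2.trans_lt hs)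
      · exact fun u hu => dF1 u (hu.2.trans_lt hs)
      · exact fun u hu => dE u (hu.2.trans_lt hs)
      · exact fun u _ => hE0 u
      · exact fun u _ => hGn u
      · exact fun u _ => hF0 u
      · exact fun u hu => hGi u (hu.2.trans_lt hs)
      · exact fun u hu => hFi u (hu.2.trans_lt hs)
      · exact ⟨ha, le_rfl⟩
    have h2 : Tendsto (fun a => (2 * Real.pi * (Real.exp (‖t‖ * lam (x a)) *
        (‖t‖ * 12 * Real.exp a)) * F a) * E a) atBot (𝓝 0) := by
      have t1 : Tendsto (fun a => Real.exp (‖t‖ * lam (x a))) atBot (𝓝 (Real.exp (‖t‖ * 0))) :=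
        (Real.continuous_exp.tendsto _).comp (hlamc.const_mul _)
      have t2 : Tendsto (fun a => F a) atBot (𝓝 (Real.exp (κ * (93 / 25 * 0 + 0)))) :=
        (Real.continuous_exp.tendsto _).comp (((hlamc.const_mul _).add hwwc).const_mul _)
      have t3 : Tendsto (fun a => E a) atBot (𝓝 (Real.exp (-(2 * t.re) * 0))) :=
        (Real.continuous_exp.tendsto _).comp (hlamc.const_mul _)
      have t4 : Tendsto (fun a => ‖t‖ * 12 * Real.exp a) atBot (𝓝 (‖t‖ * 12 * 0)) :=
        Real.tendsto_exp_atBot.const_mul _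
      have t5 := (((t1.mul t4).const_mul (2 * Real.pi)).mul t2).mul t3
      simpa using t5
    have h3 : (G1 s * F s - G s * F1 s) * E s ≤ 0 := by
      refine ge_of_tendsto h2 ?_
      filter_upwards [eventually_le_atBot s, eventually_lt_atBot (Real.log (1 / 2))] with a ha1 ha2
      exact (h1 a ha1).trans (hsmall a ha2)
    by_contra hcon
    push Not at hcon
    have := mul_pos hcon (hE0 s)
    linarith
  -- conclusion
  obtain ⟨s, hs⟩ : ∃ s, s = Real.log r := ⟨_, rfl⟩
  have hs0 : s < 0 := by rw [hs]; exact Real.log_neg hr0 hr1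
  have hes : Real.exp s = r := by rw [hs]; exact Real.exp_log hr0
  have hfin : ∀ a, a ≤ s → G s / F s ≤ 2 * Real.pi * Real.exp (‖t‖ * lam (x a)) := by
    intro a ha
    have ha0 : a < 0 := ha.trans_lt hs0
    have h1 := ode2 (G := G) (G1 := G1) (S := F) (S1 := F1) ha
      (fun u hu => dG u (hu.2.trans_lt hs0)) (fun u hu => dF u (hu.2.trans_lt hs0))
      (fun u _ => hF0 u) (fun u hu => hwneg u (hu.2.trans_lt hs0))
    have h2 : G a / F a ≤ G a := by
      apply div_le_self (hGn a)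
      simp only [hF]
      apply Real.one_le_exp
      exact mul_nonneg hκ0 (add_nonneg (mul_nonneg (by norm_num)
        (lam_nonneg (hx0 a).le (hx1 a ha0))) (ww_nonneg (hx0 a).le (hx1 a ha0)))
    exact h1.trans (h2.trans (hGb a ha0))
  have hlim2 : Tendsto (fun a => 2 * Real.pi * Real.exp (‖t‖ * lam (x a))) atBot
      (𝓝 (2 * Real.pi)) := by
    have t1 : Tendsto (fun a => Real.exp (‖t‖ * lam (x a))) atBot (𝓝 (Real.exp (‖t‖ * 0))) :=
      (Real.continuous_exp.tendsto _).comp (hlamc.const_mul _)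
    have t2 := t1.const_mul (2 * Real.pi)
    simpa using t2
  have h1 : G s / F s ≤ 2 * Real.pi := by
    refine ge_of_tendsto hlim2 ?_
    filter_upwards [eventually_le_atBot s] with a ha using hfin a ha
  rw [div_le_iff₀ (hF0 s)] at h1
  have e1 : G s = ∫ θ in (0 : ℝ)..(2 * Real.pi), Real.exp ((starRingEnd ℂ) t * H (pt r θ)).re := by
    simp only [hG]
    refine intervalIntegral.integral_congr fun θ _ => ?_
    simp only [one_mul]
    rw [hKe, hes]
  have e2 : F s = Real.exp (‖t‖ ^ 2 * (93 / 25 * lam (r ^ 2) + ww (r ^ 2))) := by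
    simp only [hF, hx]
    rw [hκ, hes]
  rw [← e1, ← e2]
  exact h1

/-- exponential moments for all complex exponents -/
theorem exp_all (S : Sg Y H) (t : ℂ) {r : ℝ} (hr0 : 0 < r) (hr1 : r < 1) :
    ∫ θ in (0 : ℝ)..(2 * Real.pi), Real.exp ((starRingEnd ℂ) t * H (pt r θ)).re ≤
      2 * Real.pi * (Real.exp (1 / 64) * Real.exp (187 / 50 * ‖t‖ ^ 2 * lam (r ^ 2))) := by
  have hpi := Real.pi_pos
  have hx0 : 0 < r ^ 2 := by positivity
  have hx1 : r ^ 2 < 1 := pow_lt_one₀ hr0.le hr1 two_ne_zero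
  obtain ⟨L, hL⟩ : ∃ L, L = lam (r ^ 2) := ⟨_, rfl⟩
  have hL0 : 0 < L := by rw [hL]; exact lam_pos hx0 hx1
  have hw1 := ww_le hx1
  have hw0 := ww_nonneg hx0.le hx1
  rw [← hL]
  rcases le_or_gt ‖t‖ (1 / 8) with ht | ht
  · refine (exp_small S t ht hr0 hr1).trans ?_
    rw [← hL, ← Real.exp_add]
    apply mul_le_mul_of_nonneg_left _ (by positivity)
    apply Real.exp_le_exp.2
    have hn := norm_nonneg t
    have h1 : ‖t‖ ^ 2 * ww (r ^ 2) ≤ 1 / 64 := by
      calc ‖t‖ ^ 2 * ww (r ^ 2) ≤ (1 / 8) ^ 2 * 1 := by gcongr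
        _ = _ := by norm_num
    have h2 : 0 ≤ ‖t‖ ^ 2 * L := by positivity
    nlinarith
  · have ht0 : 0 < ‖t‖ := by linarith
    obtain ⟨u, hu⟩ : ∃ u : ℂ, u = ((1 / (8 * ‖t‖) : ℝ) : ℂ) * t := ⟨_, rfl⟩
    have hun : ‖u‖ = 1 / 8 := by
      rw [hu, norm_mul, Complex.norm_real, Real.norm_of_nonneg (by positivity)]
      field_simp
    have htu : t = ((8 * ‖t‖ : ℝ) : ℂ) * u := by
      rw [hu, ← mul_assoc, ← Complex.ofReal_mul]
      have : 8 * ‖t‖ * (1 / (8 * ‖t‖)) = 1 := by field_simp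
      rw [this, Complex.ofReal_one, one_mul]
    have hmem : ∀ θ, pt r θ ∈ ball (0 : ℂ) 1 := by
      intro θ
      rw [mem_ball_zero_iff, norm_pt r θ hr0.le]
      exact hr1
    have hH : ∀ θ, ‖H (pt r θ)‖ ≤ L := by
      intro θ
      have := goluzin S (hmem θ)
      rw [norm_pt r θ hr0.le] at this
      rw [hL]
      exact this
    have hpt : ∀ θ, ((starRingEnd ℂ) t * H (pt r θ)).re ≤
        (‖t‖ - 1 / 8) * L + ((starRingEnd ℂ) u * H (pt r θ)).re := by
      intro θ
      have h1 : ((starRingEnd ℂ) t * H (pt r θ)).re =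
          8 * ‖t‖ * ((starRingEnd ℂ) u * H (pt r θ)).re := by
        rw [htu, map_mul, Complex.conj_ofReal, mul_assoc, Complex.re_ofReal_mul, ← htu]
      have h2 : ((starRingEnd ℂ) u * H (pt r θ)).re ≤ 1 / 8 * L := by
        refine (re_le_norm _).trans ?_
        rw [norm_mul, RCLike.norm_conj, hun]
        exact mul_le_mul_of_nonneg_left (hH θ) (by norm_num)
      rw [h1]
      nlinarith
    have hc := cont_circ S.dH hr0.le hr1
    have h1 : ∫ θ in (0 : ℝ)..(2 * Real.pi), Real.exp ((starRingEnd ℂ) t * H (pt r θ)).re ≤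
        ∫ θ in (0 : ℝ)..(2 * Real.pi), Real.exp ((‖t‖ - 1 / 8) * L) *
          Real.exp ((starRingEnd ℂ) u * H (pt r θ)).re := by
      apply intervalIntegral.integral_mono_on (by positivity)
      · exact (Real.continuous_exp.comp (continuous_re.comp (continuous_const.mul hc))).intervalIntegrable _ _
      · exact (continuous_const.mul (Real.continuous_exp.comp
          (continuous_re.comp (continuous_const.mul hc)))).intervalIntegrable _ _
      · intro θ _
        rw [← Real.exp_add]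
        exact Real.exp_le_exp.2 (hpt θ)
    rw [intervalIntegral.integral_const_mul] at h1
    refine h1.trans ?_
    have h2 := exp_small S u hun.le hr0 hr1
    rw [hun, ← hL] at h2
    refine (mul_le_mul_of_nonneg_left h2 (Real.exp_pos _).le).trans ?_
    have e1 : Real.exp ((‖t‖ - 1 / 8) * L) * (2 * Real.pi *
        Real.exp ((1 / 8) ^ 2 * (93 / 25 * L + ww (r ^ 2)))) =
        2 * Real.pi * Real.exp ((‖t‖ - 1 / 8) * L + (1 / 8) ^ 2 * (93 / 25 * L + ww (r ^ 2))) := by
      rw [Real.exp_add]; ring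
    rw [e1, ← Real.exp_add]
    apply mul_le_mul_of_nonneg_left _ (by positivity)
    apply Real.exp_le_exp.2
    have h3 : (‖t‖ - 1 / 8 + 93 / 1600) * L ≤ 187 / 50 * ‖t‖ ^ 2 * L := by
      apply mul_le_mul_of_nonneg_right _ hL0.le
      nlinarith [sq_nonneg (‖t‖ - 25 / 187)]
    nlinarith

/-- the integral of the question, disc version -/
theorem disc_15 (S : Sg Y H) {r : ℝ} (hr0 : 0 < r) (hr1 : r < 1) :
    ∫ θ in (0 : ℝ)..(2 * Real.pi), Real.exp (1 / 15 * ‖H (pt r θ)‖ ^ 2 / lam (r ^ 2)) ≤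
      2 * Real.pi * 800 := by
  have hpi := Real.pi_pos
  have hx0 : 0 < r ^ 2 := by positivity
  have hx1 : r ^ 2 < 1 := pow_lt_one₀ hr0.le hr1 two_ne_zero
  obtain ⟨L, hL⟩ : ∃ L, L = lam (r ^ 2) := ⟨_, rfl⟩
  have hL0 : 0 < L := by rw [hL]; exact lam_pos hx0 hx1
  have hH : ∀ θ, ‖H (pt r θ)‖ ≤ L := by
    intro θ
    have h1 : pt r θ ∈ ball (0 : ℂ) 1 := by
      rw [mem_ball_zero_iff, norm_pt r θ hr0.le]
      exact hr1
    have := goluzin S h1
    rw [norm_pt r θ hr0.le] at this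
    rw [hL]
    exact this
  have h1 := gauss_lin (h := fun θ => H (pt r θ)) (cont_circ S.dH hr0.le hr1) hH
    (b := 15 / 4 * L) (β := 187 / 50 * L) (C₁ := Real.exp (1 / 64)) (C₂ := 0)
    (by positivity) (by linarith) le_rfl (by
      intro t
      have := exp_all S t hr0 hr1
      rw [← hL] at this
      refine this.trans (le_of_eq ?_)
      rw [zero_mul, Real.exp_zero, mul_one]
      congr 3
      ring) (Real.exp_pos _).le
  rw [← hL]
  have e1 : ∀ θ, Real.exp (‖H (pt r θ)‖ ^ 2 / (4 * (15 / 4 * L))) =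
      Real.exp (1 / 15 * ‖H (pt r θ)‖ ^ 2 / L) := by
    intro θ
    congr 1
    field_simp
  simp only [e1] at h1
  refine h1.trans ?_
  apply mul_le_mul_of_nonneg_left _ (by positivity)
  have e2 : 15 / 4 * L / (15 / 4 * L - 187 / 50 * L) = 375 := by
    have : (15 / 4 * L - 187 / 50 * L) = L / 100 := by ring
    rw [this]
    field_simp
    norm_num
  rw [e2]
  have h2 : Real.exp (1 / 64) ≤ 16 / 15 := by
    have h3 := Real.exp_bound_div_one_sub_of_interval (x := 1 / 64) (by norm_num) (by norm_num)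
    norm_num at h3 ⊢
    linarith
  norm_num at h2 ⊢
  nlinarith

end

/-- The point `r e^{iθ}`. -/
noncomputable def circ (r θ : ℝ) : ℂ := (r : ℂ) * Complex.exp ((θ : ℂ) * Complex.I)

/-- `ψ ∈ Σ` and `h = log ψ'` (the branch vanishing at infinity), exactly as in the problem. -/
def IsSigma (ψ h : ℂ → ℂ) : Prop :=
  DifferentiableOn ℂ ψ {z : ℂ | 1 < ‖z‖} ∧
  Set.InjOn ψ {z : ℂ | 1 < ‖z‖} ∧
  (∃ b : ℂ, Filter.Tendsto (fun z => ψ z - z) (Bornology.cobounded ℂ) (nhds b)) ∧
  DifferentiableOn ℂ h {z : ℂ | 1 < ‖z‖} ∧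
  (∀ z : ℂ, 1 < ‖z‖ → Complex.exp (h z) = deriv ψ z) ∧
  Filter.Tendsto h (Bornology.cobounded ℂ) (nhds 0)

/-- The integral of Q1. -/
noncomputable def marshall (a R : ℝ) (h : ℂ → ℂ) : ℝ :=
  (1 / (2 * Real.pi)) * ∫ θ in (0:ℝ)..(2 * Real.pi),
    Real.exp (a * ‖h (circ R θ)‖ ^ 2 / Real.log (R ^ 2 / (R ^ 2 - 1)))

theorem transfer (Φ : ℂ → ℝ) (h : ℂ → ℂ) {R : ℝ} (hR : 1 < R) :
    ∫ θ in (0:ℝ)..(2 * Real.pi), Φ (h (circ R θ)) =
      ∫ θ in (0:ℝ)..(2 * Real.pi), Φ (hat h 0 (pt R⁻¹ θ)) := by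
  have hr0 : 0 < R⁻¹ := by positivity
  set F : ℝ → ℝ := fun θ => Φ (hat h 0 (pt R⁻¹ θ)) with hF
  have hper : Function.Periodic F (2 * Real.pi) := by
    intro θ
    simp only [hF, pt_periodic R⁻¹ θ]
  have h2 : ∀ θ : ℝ, Φ (h (circ R θ)) = F (-θ) := by
    intro θ
    simp only [hF]
    have hne : pt R⁻¹ (-θ) ≠ 0 := by
      rw [← norm_pos_iff, norm_pt _ _ hr0.le]
      exact hr0
    rw [hat_ne _ _ hne]
    have e1 : (pt R⁻¹ (-θ))⁻¹ = circ R θ := by
      simp only [pt, circleMap, zero_add, circ]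
      rw [mul_inv, ← Complex.exp_neg]
      push_cast
      rw [inv_inv]
      congr 2
      ring
    rw [e1]
  simp only [h2]
  rw [intervalIntegral.integral_comp_neg F]
  have h3 := hper.intervalIntegral_add_eq (-(2 * Real.pi)) 0
  rw [neg_add_cancel, zero_add] at h3
  rw [neg_zero]
  exact h3

theorem lam_eq {R : ℝ} (hR : 1 < R) : lam (R⁻¹ ^ 2) = Real.log (R ^ 2 / (R ^ 2 - 1)) := by
  have hR0 : 0 < R := by linarith
  have hR2 : 0 < R ^ 2 - 1 := by nlinarith
  have : 1 - R⁻¹ ^ 2 = (R ^ 2 / (R ^ 2 - 1))⁻¹ := by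
    field_simp
  rw [lam, this, Real.log_inv, neg_neg]

theorem marshall_15 {R : ℝ} (hR : 1 < R) {ψ h : ℂ → ℂ} (hS : IsSigma ψ h) :
    marshall (1 / 15) R h ≤ 800 := by
  have hpi := Real.pi_pos
  have S := toSg hS.1 hS.2.1 hS.2.2.1 hS.2.2.2.1 hS.2.2.2.2.1 hS.2.2.2.2.2
  have h1 := disc_15 S (inv_pos.2 (by linarith : 0 < R)) (inv_lt_one_of_one_lt₀ hR)
  unfold marshall
  rw [transfer (fun w => Real.exp (1 / 15 * ‖w‖ ^ 2 / Real.log (R ^ 2 / (R ^ 2 - 1)))) h hR,
    ← lam_eq hR]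
  calc _ ≤ 1 / (2 * Real.pi) * (2 * Real.pi * 800) := mul_le_mul_of_nonneg_left h1 (by positivity)
    _ = 800 := by field_simp

theorem goluzin_ext {R : ℝ} (hR : 1 < R) {ψ h : ℂ → ℂ} (hS : IsSigma ψ h) (θ : ℝ) :
    ‖h (circ R θ)‖ ≤ Real.log (R ^ 2 / (R ^ 2 - 1)) := by
  have S := toSg hS.1 hS.2.1 hS.2.2.1 hS.2.2.2.1 hS.2.2.2.2.1 hS.2.2.2.2.2
  have hR0 : 0 < R := by linarith
  have hn : ‖circ R θ‖ = R := by
    rw [circ, norm_mul, Complex.norm_real, Real.norm_of_nonneg hR0.le, Complex.norm_exp_ofReal_mul_I,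
      mul_one]
  have hne : (circ R θ)⁻¹ ≠ 0 := by
    rw [← norm_pos_iff, norm_inv, hn]; positivity
  have hmem : (circ R θ)⁻¹ ∈ ball (0 : ℂ) 1 := by
    rw [mem_ball_zero_iff, norm_inv, hn]; exact inv_lt_one_of_one_lt₀ hR
  have h1 := goluzin S hmem
  rw [hat_ne _ _ hne, inv_inv, norm_inv, hn] at h1
  rw [← lam_eq hR]
  exact h1

theorem cont_ext {R : ℝ} (hR : 1 < R) {h : ℂ → ℂ}
    (hh : DifferentiableOn ℂ h {z : ℂ | 1 < ‖z‖}) : Continuous fun θ : ℝ => h (circ R θ) := by
  have hR0 : 0 < R := by linarith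
  apply hh.continuousOn.comp_continuous (by unfold circ; fun_prop)
  intro θ
  show 1 < ‖circ R θ‖
  rw [circ, norm_mul, Complex.norm_real, Real.norm_of_nonneg hR0.le, Complex.norm_exp_ofReal_mul_I,
    mul_one]
  exact hR

/-- **The strong Marshall bound for the whole class `Σ` and all `a ≤ 1/15`.** -/
theorem result :
    (∀ a R : ℝ, a ≤ 1 / 15 → 1 < R → ∀ ψ h : ℂ → ℂ, IsSigma ψ h → marshall a R h ≤ 800) ∧
    (∀ a R : ℝ, 1 / 15 ≤ a → 1 < R → ∀ ψ h : ℂ → ℂ, IsSigma ψ h →
      marshall a R h ≤ 800 * (R ^ 2 / (R ^ 2 - 1)) ^ (a - 1 / 15)) ∧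
    (∀ (t : ℂ) (R : ℝ), 1 < R → ∀ ψ h : ℂ → ℂ, IsSigma ψ h →
      (1 / (2 * Real.pi)) * ∫ θ in (0:ℝ)..(2 * Real.pi),
        Real.exp ((starRingEnd ℂ) t * h (circ R θ)).re ≤
      Real.exp (1 / 64) * (R ^ 2 / (R ^ 2 - 1)) ^ (187 / 50 * ‖t‖ ^ 2)) := by
  have hpi := Real.pi_pos
  have hq : ∀ R : ℝ, 1 < R → 1 < R ^ 2 / (R ^ 2 - 1) := by
    intro R hR
    have hR2 : 0 < R ^ 2 - 1 := by nlinarith
    rw [one_lt_div hR2]
    linarith
  refine ⟨?_, ?_, ?_⟩
  · intro a R ha hR ψ h hS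
    have hL : 0 < Real.log (R ^ 2 / (R ^ 2 - 1)) := Real.log_pos (hq R hR)
    have hc := cont_ext hR hS.2.2.2.1
    refine le_trans ?_ (marshall_15 hR hS)
    unfold marshall
    apply mul_le_mul_of_nonneg_left _ (by positivity)
    apply intervalIntegral.integral_mono_on (by positivity)
    · exact (Real.continuous_exp.comp ((continuous_const.mul (hc.norm.pow 2)).div_const _)).intervalIntegrable _ _
    · exact (Real.continuous_exp.comp ((continuous_const.mul (hc.norm.pow 2)).div_const _)).intervalIntegrable _ _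
    · intro θ _
      apply Real.exp_le_exp.2
      gcongr
  · intro a R ha hR ψ h hS
    have hL : 0 < Real.log (R ^ 2 / (R ^ 2 - 1)) := Real.log_pos (hq R hR)
    have hc := cont_ext hR hS.2.2.2.1
    have h0 : 0 < R ^ 2 / (R ^ 2 - 1) := by linarith [hq R hR]
    have h1 := marshall_15 hR hS
    have h2 : marshall a R h ≤ (R ^ 2 / (R ^ 2 - 1)) ^ (a - 1 / 15) * marshall (1 / 15) R h := by
      unfold marshall
      rw [mul_left_comm]
      apply mul_le_mul_of_nonneg_left _ (by positivity)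
      rw [← intervalIntegral.integral_const_mul]
      apply intervalIntegral.integral_mono_on (by positivity)
      · exact (Real.continuous_exp.comp ((continuous_const.mul (hc.norm.pow 2)).div_const _)).intervalIntegrable _ _
      · exact (continuous_const.mul (Real.continuous_exp.comp
          ((continuous_const.mul (hc.norm.pow 2)).div_const _))).intervalIntegrable _ _
      · intro θ _
        rw [Real.rpow_def_of_pos h0, ← Real.exp_add]
        apply Real.exp_le_exp.2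
        have hg := goluzin_ext hR hS θ
        obtain ⟨L, hLd⟩ : ∃ L, L = Real.log (R ^ 2 / (R ^ 2 - 1)) := ⟨_, rfl⟩
        rw [← hLd] at hg hL ⊢
        have h3 : ‖h (circ R θ)‖ ^ 2 / L ≤ L := by
          rw [div_le_iff₀ hL]
          nlinarith [norm_nonneg (h (circ R θ))]
        have h4 : (a - 1 / 15) * (‖h (circ R θ)‖ ^ 2 / L) ≤ (a - 1 / 15) * L :=
          mul_le_mul_of_nonneg_left h3 (by linarith)
        have e1 : a * ‖h (circ R θ)‖ ^ 2 / L = (a - 1 / 15) * (‖h (circ R θ)‖ ^ 2 / L) +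
            1 / 15 * ‖h (circ R θ)‖ ^ 2 / L := by ring
        rw [e1]
        linarith
    refine h2.trans ?_
    rw [mul_comm]
    exact mul_le_mul_of_nonneg_right h1 (by positivity)
  · intro t R hR ψ h hS
    have S := toSg hS.1 hS.2.1 hS.2.2.1 hS.2.2.2.1 hS.2.2.2.2.1 hS.2.2.2.2.2
    have h1 := exp_all S t (inv_pos.2 (by linarith : 0 < R)) (inv_lt_one_of_one_lt₀ hR)
    have h0 : 0 < R ^ 2 / (R ^ 2 - 1) := by linarith [hq R hR]
    rw [transfer (fun w => Real.exp ((starRingEnd ℂ) t * w).re) h hR]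
    rw [lam_eq hR, mul_comm (187 / 50 * ‖t‖ ^ 2) (Real.log _), ← Real.rpow_def_of_pos h0] at h1
    calc _ ≤ 1 / (2 * Real.pi) * (2 * Real.pi * (Real.exp (1 / 64) *
          (R ^ 2 / (R ^ 2 - 1)) ^ (187 / 50 * ‖t‖ ^ 2))) :=
          mul_le_mul_of_nonneg_left h1 (by positivity)
      _ = _ := by field_simp

end Pool.Agent.Results.MP_16b0ee_an.WholeClass
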