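import Pool.Agent.Results.MP_16b0ee_an.MarshallBlochDistance
import Pool.Agent.Q156.HM.SP

/-!
# MP_16b0ee_an: the strong Marshall bound in holomorphic families

Let `(ψ_λ)`, `|λ| < 1`, be a holomorphic family of maps of the class `Σ` with `ψ_0' = 1` (for
instance a holomorphic motion of the exterior of the unit disc). The members `ψ_λ` with
`|λ| ≤ 16/65` satisfy the bound of the question in the full range `0 < a < 1`, with constants that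
do not depend on the family, and the members with `|λ| ≤ k` satisfy it for all `a < 1` with
`a (8k / (1 + √(1 - k²)))² < 1`.
-/

set_option autoImplicit false

namespace Pool.Agent.Results.MP_16b0ee_an.HolomorphicFamilies

open Complex Metric Set Filter Topology MeasureTheory
open Pool.Agent.Results.MP_16b0ee_an.MarshallBlochDistance Pool.Agent.W677.Mar

/-- `ψ_λ`, `|λ| < 1`, are functions of the class `Σ`, `h_λ = log ψ_λ'`, which depend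
holomorphically on `λ`, and `ψ_0' = 1`. -/
structure HolFamily (ψ h : ℂ → ℂ → ℂ) : Prop where
  sigma : ∀ l ∈ ball (0 : ℂ) 1, InSigma (ψ l) (h l)
  hol : ∀ z : ℂ, 1 < ‖z‖ → DifferentiableOn ℂ (fun l => h l z) (ball 0 1)
  base : ∀ z : ℂ, 1 < ‖z‖ → h 0 z = 0

/-- the integral of the question -/
noncomputable def marshall (a R : ℝ) (h : ℂ → ℂ) : ℝ :=
  (1 / (2 * Real.pi)) * ∫ θ in (0 : ℝ)..(2 * Real.pi),
    Real.exp (a * ‖h ((R : ℂ) * Complex.exp ((θ : ℂ) * Complex.I))‖ ^ 2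
      / Real.log (R ^ 2 / (R ^ 2 - 1)))

theorem sg_of {ψ h : ℂ → ℂ} (H : InSigma ψ h) :
    Sg (hat (fun z => ψ z / z) 1) (hat h 0) :=
  toSg H.1 H.2.1 H.2.2.1 H.2.2.2.1.1 H.2.2.2.2 H.2.2.2.1.2

theorem h_bound {ψ h : ℂ → ℂ} (H : InSigma ψ h) {r : ℝ} (hr : 1 < r) {x : ℂ} (hx : r ≤ ‖x‖) :
    ‖h x‖ ≤ -Real.log (1 - r⁻¹) := by
  have hx0 : x ≠ 0 := by
    rw [← norm_pos_iff]; linarith
  have hxi : ‖x⁻¹‖ ≤ r⁻¹ := by
    rw [norm_inv]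
    exact inv_anti₀ (by linarith) hx
  have hri : r⁻¹ < 1 := inv_lt_one_of_one_lt₀ hr
  have h1 := goluzin_le (sg_of H) (ζ := x⁻¹) (by rw [mem_ball_zero_iff]; linarith)
  rw [hat_ne _ _ (inv_ne_zero hx0), inv_inv] at h1
  refine h1.trans ?_
  apply neg_le_neg
  exact Real.log_le_log (by linarith) (by linarith)

theorem bloch {ψ h : ℂ → ℂ → ℂ} (F : HolFamily ψ h) {l z : ℂ} (hl : ‖l‖ < 1) (hz : 1 < ‖z‖) :
    (‖z‖ ^ 2 - 1) * ‖deriv (h l) z‖ ≤ 8 * ‖l‖ / (1 + √(1 - ‖l‖ ^ 2)) := by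
  have hz0 : z ≠ 0 := by rw [← norm_pos_iff]; linarith
  obtain ⟨w, hw⟩ : ∃ w, w = z⁻¹ := ⟨_, rfl⟩
  have hw0 : w ≠ 0 := by rw [hw]; exact inv_ne_zero hz0
  have hwz : w⁻¹ = z := by rw [hw, inv_inv]
  have hwn : ‖w‖ = ‖z‖⁻¹ := by rw [hw, norm_inv]
  have hw1 : ‖w‖ < 1 := by rw [hwn]; exact inv_lt_one_of_one_lt₀ hz
  have hwb : w ∈ ball (0 : ℂ) 1 := mem_ball_zero_iff.2 hw1
  have hwp : 0 < ‖w‖ := norm_pos_iff.2 hw0
  -- holomorphic dependence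
  have hρ : 0 < (‖z‖ - 1) / 2 := by linarith
  have hext : ∀ x ∈ ball z ((‖z‖ - 1) / 2), (‖z‖ + 1) / 2 ≤ ‖x‖ := by
    intro x hx
    rw [mem_ball_iff_norm] at hx
    have := norm_sub_norm_le z x
    rw [norm_sub_rev] at this
    linarith
  have hd : DifferentiableOn ℂ (fun l => deriv (h l) z) (ball 0 1) := by
    refine Q156.HM.deriv_hol (B := -Real.log (1 - ((‖z‖ + 1) / 2)⁻¹)) hρ ?_ ?_ ?_
    · intro l hl
      refine (F.sigma l hl).2.2.2.1.1.mono fun x hx => ?_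
      have := hext x hx
      show 1 < ‖x‖
      linarith
    · intro l hl x hx
      exact h_bound (F.sigma l hl) (by linarith) (hext x hx)
    · intro x hx
      have := hext x hx
      exact F.hol x (by linarith)
  set f : ℂ → ℂ := fun l => ((1 - ‖w‖ ^ 2 : ℝ) : ℂ) * -(z * deriv (h l) z) with hf
  have hfd : DifferentiableOn ℂ f (ball 0 1) := ((hd.const_mul z).neg).const_mul _
  have hf0 : f 0 = 0 := by
    have : deriv (h 0) z = 0 := by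
      have he : h 0 =ᶠ[𝓝 z] fun _ => 0 := by
        filter_upwards [isOpen_ext.mem_nhds (show z ∈ {z : ℂ | 1 < ‖z‖} from hz)] with x hx
        exact F.base x hx
      rw [he.deriv_eq, deriv_const]
    simp only [hf, this]
    simp
  have hfe : ∀ l ∈ ball (0 : ℂ) 1, f l = ((1 - ‖w‖ ^ 2 : ℝ) : ℂ) * (w * deriv (hat (h l) 0) w) := by
    intro l hl
    have hH : Hol (h l) 0 := ⟨(F.sigma l hl).2.2.2.1.1, (F.sigma l hl).2.2.2.1.2⟩
    rw [hat_deriv hH hwb hw0, hwz]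
  have hfb : ∀ l ∈ ball (0 : ℂ) 1, ‖f l - ((2 * ‖w‖ ^ 2 : ℝ) : ℂ)‖ ≤ 4 * ‖w‖ := by
    intro l hl
    have := kbound (sg_of (F.sigma l hl)) hwb
    rw [hfe l hl]
    push_cast at this ⊢
    exact this
  have hSP := Q156.HM.schwarz_pick (c := 2 * ‖w‖ ^ 2) (R := 4 * ‖w‖) (by positivity) (by nlinarith) hfd
    hf0 hfb (l := l) (mem_ball_zero_iff.2 hl)
  have hfn : ‖f l‖ = ‖w‖ * ((‖z‖ ^ 2 - 1) * ‖deriv (h l) z‖) := by
    simp only [hf]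
    have h1 : 0 ≤ 1 - ‖w‖ ^ 2 := by nlinarith
    rw [norm_mul, norm_neg, norm_mul, Complex.norm_real, Real.norm_of_nonneg h1, hwn]
    have : ‖z‖ ≠ 0 := by positivity
    field_simp
  obtain ⟨t, ht⟩ : ∃ t, t = ‖w‖ := ⟨_, rfl⟩
  obtain ⟨k, hk⟩ : ∃ k, k = ‖l‖ := ⟨_, rfl⟩
  obtain ⟨X, hX⟩ : ∃ X, X = (‖z‖ ^ 2 - 1) * ‖deriv (h l) z‖ := ⟨_, rfl⟩
  rw [hfn, ← ht, ← hk, ← hX] at hSP
  rw [← hk, ← hX]
  have hk0 : 0 ≤ k := by rw [hk]; exact norm_nonneg _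
  rw [← hk] at hl
  rw [← ht] at hwp hw1
  have e1 : 2 * t ^ 2 / (4 * t) = t / 2 := by
    field_simp
    ring
  rw [e1] at hSP
  set s := √(1 - k ^ 2) with hs
  have hs0 : 0 ≤ s := Real.sqrt_nonneg _
  have hs2 : s ^ 2 = 1 - k ^ 2 := Real.sq_sqrt (by nlinarith)
  have hden : 0 < 1 - t / 2 * k := by nlinarith
  rw [le_div_iff₀ hden] at hSP
  rw [le_div_iff₀ (by linarith)]
  have h2 : X * (1 - t / 2 * k) ≤ 4 * (1 - (t / 2) ^ 2) * k := by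
    have : t * (X * (1 - t / 2 * k)) ≤ t * (4 * (1 - (t / 2) ^ 2) * k) := by nlinarith
    exact le_of_mul_le_mul_left this hwp
  -- `(1 - t²/4)(1 + s) ≤ 2 - k t`
  have h3 : (1 - (t / 2) ^ 2) * (1 + s) ≤ 2 * (1 - t / 2 * k) := by
    have h4 : 0 ≤ (1 + s) * (2 * (1 - t / 2 * k) - (1 - (t / 2) ^ 2) * (1 + s)) := by
      have : (1 + s) * (2 * (1 - t / 2 * k) - (1 - (t / 2) ^ 2) * (1 + s)) =
          (k - (1 + s) * t / 2) ^ 2 + (1 - k ^ 2 - s ^ 2) := by ring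
      rw [this, hs2]
      have := sq_nonneg (k - (1 + s) * t / 2)
      linarith
    have h5 : 0 < 1 + s := by linarith
    have := nonneg_of_mul_nonneg_right h4 h5
    linarith
  have h6 : X * (1 + s) * (1 - t / 2 * k) ≤ 8 * k * (1 - t / 2 * k) := by
    calc X * (1 + s) * (1 - t / 2 * k) = (X * (1 - t / 2 * k)) * (1 + s) := by ring
      _ ≤ (4 * (1 - (t / 2) ^ 2) * k) * (1 + s) := mul_le_mul_of_nonneg_right h2 (by linarith)
      _ = 4 * k * ((1 - (t / 2) ^ 2) * (1 + s)) := by ring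
      _ ≤ 4 * k * (2 * (1 - t / 2 * k)) := mul_le_mul_of_nonneg_left h3 (by linarith)
      _ = _ := by ring
  exact le_of_mul_le_mul_right h6 hden

theorem beta_mono {l k : ℝ} (hl : 0 ≤ l) (hlk : l ≤ k) (hk : k ≤ 1) :
    8 * l / (1 + √(1 - l ^ 2)) ≤ 8 * k / (1 + √(1 - k ^ 2)) := by
  have h1 : √(1 - k ^ 2) ≤ √(1 - l ^ 2) := Real.sqrt_le_sqrt (by nlinarith)
  have h2 := Real.sqrt_nonneg (1 - k ^ 2)
  have h3 : 0 ≤ 8 * k := by linarith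
  gcongr

theorem result :
    (∀ ψ h : ℂ → ℂ → ℂ, HolFamily ψ h → ∀ l z : ℂ, ‖l‖ < 1 → 1 < ‖z‖ →
      (‖z‖ ^ 2 - 1) * ‖deriv (h l) z‖ ≤ 8 * ‖l‖ / (1 + √(1 - ‖l‖ ^ 2))) ∧
    (∀ a k : ℝ, 0 < a → a < 1 → 0 ≤ k → k < 1 → a * (8 * k / (1 + √(1 - k ^ 2))) ^ 2 < 1 →
      ∃ C : ℝ, ∀ ψ h : ℂ → ℂ → ℂ, HolFamily ψ h → ∀ l : ℂ, ‖l‖ ≤ k → ∀ R : ℝ, 1 < R →
        marshall a R (h l) ≤ C) ∧
    ∀ a : ℝ, 0 < a → a < 1 →
      ∃ C : ℝ, ∀ ψ h : ℂ → ℂ → ℂ, HolFamily ψ h → ∀ l : ℂ, ‖l‖ ≤ 16 / 65 → ∀ R : ℝ, 1 < R →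
        marshall a R (h l) ≤ C := by
  have h2 : ∀ a k : ℝ, 0 < a → a < 1 → 0 ≤ k → k < 1 → a * (8 * k / (1 + √(1 - k ^ 2))) ^ 2 < 1 →
      ∃ C : ℝ, ∀ ψ h : ℂ → ℂ → ℂ, HolFamily ψ h → ∀ l : ℂ, ‖l‖ ≤ k → ∀ R : ℝ, 1 < R →
        marshall a R (h l) ≤ C := by
    intro a k ha ha1 hk0 hk1 hak
    obtain ⟨β, hβ⟩ : ∃ β, β = max 1 (8 * k / (1 + √(1 - k ^ 2))) := ⟨_, rfl⟩
    have hβ1 : 1 ≤ β := by rw [hβ]; exact le_max_left _ _
    have haβ : a * β ^ 2 < 1 := by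
      rcases max_choice 1 (8 * k / (1 + √(1 - k ^ 2))) with h | h
      · rw [hβ, h]; linarith
      · rw [hβ, h]; exact hak
    obtain ⟨C, hC⟩ := MarshallBlochDistance.result a β 0 0 ha hβ1 haβ le_rfl (by nlinarith) le_rfl
    refine ⟨C, fun ψ h F l hl R hR => ?_⟩
    have hl1 : ‖l‖ < 1 := hl.trans_lt hk1
    have hS := F.sigma l (mem_ball_zero_iff.2 hl1)
    refine hC R (ψ l) (h l) hR hS ?_
    refine ⟨0, fun _ => 0, fun _ _ => 0, 0, 0, fun _ => 0, h l, by simp, fun j => j.elim0, hol_const 0,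
      fun z _ => by simp, hS.2.2.2.1, fun z hz => ?_, fun z _ => by simp⟩
    refine (bloch F hl1 hz).trans ((beta_mono (norm_nonneg _) hl hk1.le).trans ?_)
    rw [hβ]
    exact le_max_right _ _
  refine ⟨fun ψ h F l z hl hz => bloch F hl hz, h2, fun a ha ha1 => ?_⟩
  refine h2 a (16 / 65) ha ha1 (by norm_num) (by norm_num) ?_
  have e1 : √(1 - (16 / 65 : ℝ) ^ 2) = 63 / 65 := by
    rw [Real.sqrt_eq_iff_mul_self_eq (by norm_num) (by norm_num)]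
    norm_num
  rw [e1]
  norm_num
  linarith

end Pool.Agent.Results.MP_16b0ee_an.HolomorphicFamilies
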