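import Mathlib
import Pool.Agent.Q158.LacC

/-!
# MP_16b0ee_an: the strong Marshall bound for maps with lacunary log-derivative

Let `ψ` belong to the class `Σ` and let `h = log ψ' = ∑ c_k z^{-n_k}` be a series with gaps: `n_{k+1} ≥ q n_k` for all
`k`, `q ≥ 2`. Let `8 e² a < log q`. Then the integral of Q1 is at most a constant which depends only on `a` and `q`, for
all `R > 1`. For `log q > 8 e²` (`= 59.1…`) this is the full range `0 < a < 1` of the question (and a little more).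

The proof: by the sharp bound of `ψ'' / ψ'` the real part of `z h'(z)` has a one-sided bound `2 / (1 - |z|^{-2})`, so that
`|c_k| ≤ 2 e (1 + 2 / n_k)`. By Riesz products the mean of `exp (Re (conj t h))` on `|z| = R` is at most
`exp (|t|² ∑ |c_k|² R^{-2 n_k} / 2)`, and only about `log (R² / (R² - 1)) / log q` terms of the sum matter; a Gaussian
average over `t` finishes the proof.
-/

set_option autoImplicit false

namespace Pool.Agent.Results.MP_16b0ee_an.LacunaryLogDerivatives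

/-- The point `r e^{iθ}`. -/
noncomputable def circ (r θ : ℝ) : ℂ := (r : ℂ) * Complex.exp ((θ : ℂ) * Complex.I)

/-- `ψ ∈ Σ` and `h = log ψ'` (the branch vanishing at infinity), exactly as in the problem. -/
def IsSigma (ψ h : ℂ → ℂ) : Prop :=
  DifferentiableOn ℂ ψ {z : ℂ | 1 < ‖z‖} ∧
  Set.InjOn ψ {z : ℂ | 1 < ‖z‖} ∧
  (∃ b : ℂ, Filter.Tendsto (fun z => ψ z - z) (Bornology.cobounded ℂ) (nhds b)) ∧
  DifferentiableOn ℂ h {z : ℂ | 1 < ‖z‖} ∧
  (∀ z : ℂ, 1 < ‖z‖ → Complex.exp (h z) = deriv ψ z) ∧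
  Filter.Tendsto h (Bornology.cobounded ℂ) (nhds 0)

/-- The integral of Q1. -/
noncomputable def marshall (a R : ℝ) (h : ℂ → ℂ) : ℝ :=
  (1 / (2 * Real.pi)) * ∫ θ in (0:ℝ)..(2 * Real.pi),
    Real.exp (a * ‖h (circ R θ)‖ ^ 2 / Real.log (R ^ 2 / (R ^ 2 - 1)))

/-- `h(z) = ∑ c_k z^{-n_k}` for `|z| > 1`, with `n_k ≥ 1` and gaps `n_{k+1} ≥ q n_k` -/
def HasGaps (q : ℝ) (h : ℂ → ℂ) : Prop :=
  ∃ (n : ℕ → ℕ) (c : ℕ → ℂ), (∀ k, 1 ≤ n k) ∧ (∀ k, q * (n k : ℝ) ≤ n (k + 1)) ∧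
    ∀ z : ℂ, 1 < ‖z‖ → HasSum (fun k => c k * (z⁻¹) ^ n k) (h z)

/-- **The strong Marshall bound for maps with lacunary log-derivative.** (1) If `q ≥ 2`, `a > 0` and
`ρ = 8 e² a / log q < 1`, the integral of Q1 is at most `max (2 / (1 - ρ)) (exp (288 e² a² / (1 - ρ)))` for all
`R > 1` and all `ψ ∈ Σ` for which `log ψ'` has gaps of ratio at least `q`. (2) If `log q > 8 e²`, there is a constant
`C` such that the integral is at most `C` for all `0 < a ≤ 1`, all `R > 1` and all these `ψ`. -/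
theorem result :
    (∀ q a ρ : ℝ, 2 ≤ q → 0 < a → ρ = 8 * Real.exp 2 * a / Real.log q → ρ < 1 → ∀ R : ℝ, 1 < R →
      ∀ ψ h : ℂ → ℂ, IsSigma ψ h → HasGaps q h →
        marshall a R h ≤ max (2 / (1 - ρ)) (Real.exp (288 * Real.exp 2 * a ^ 2 / (1 - ρ)))) ∧
    (∀ q : ℝ, 0 < q → 8 * Real.exp 2 < Real.log q → ∃ C : ℝ, ∀ a : ℝ, 0 < a → a ≤ 1 → ∀ R : ℝ, 1 < R →
      ∀ ψ h : ℂ → ℂ, IsSigma ψ h → HasGaps q h → marshall a R h ≤ C) := by
  have key : ∀ q a ρ : ℝ, 2 ≤ q → 0 < a → ρ = 8 * Real.exp 2 * a / Real.log q → ρ < 1 → ∀ R : ℝ, 1 < R →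
      ∀ ψ h : ℂ → ℂ, IsSigma ψ h → HasGaps q h →
        marshall a R h ≤ max (2 / (1 - ρ)) (Real.exp (288 * Real.exp 2 * a ^ 2 / (1 - ρ))) :=
    fun q a ρ hq ha hρ hρ1 R hR ψ h hS hg => Pool.Agent.Q158.Lac.bound hq ha hρ hρ1 hS hg hR
  refine ⟨key, fun q hq0 hq => ?_⟩
  have he := Real.exp_pos 2
  have he1 : (1 : ℝ) < Real.exp 2 := by
    have := Real.add_one_le_exp (2 : ℝ)
    linarith
  have hlq : 0 < Real.log q := by linarith
  have hq2 : 2 ≤ q := by
    have h1 : Real.log 2 ≤ Real.log q := by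
      have := Real.log_two_lt_d9
      linarith
    exact (Real.log_le_log_iff (by norm_num) hq0).1 h1
  refine ⟨max (2 / (1 - 8 * Real.exp 2 * 1 / Real.log q))
    (Real.exp (288 * Real.exp 2 * 1 ^ 2 / (1 - 8 * Real.exp 2 * 1 / Real.log q))), fun a ha ha1 R hR ψ h hS hg => ?_⟩
  have h1 := key q 1 _ hq2 one_pos rfl (by rw [div_lt_one hlq]; linarith) R hR ψ h hS hg
  refine le_trans ?_ h1
  have hpi := Real.pi_pos
  have hR2 : 0 < R ^ 2 - 1 := by nlinarith
  have hL : 0 < Real.log (R ^ 2 / (R ^ 2 - 1)) := by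
    apply Real.log_pos
    rw [one_lt_div hR2]
    linarith
  have hc := WholeClass.cont_ext hR hS.2.2.2.1
  unfold marshall
  apply mul_le_mul_of_nonneg_left _ (by positivity)
  apply intervalIntegral.integral_mono_on (by positivity)
  · exact (Real.continuous_exp.comp ((continuous_const.mul (hc.norm.pow 2)).div_const _)).intervalIntegrable _ _
  · exact (Real.continuous_exp.comp ((continuous_const.mul (hc.norm.pow 2)).div_const _)).intervalIntegrable _ _
  · intro θ _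
    apply Real.exp_le_exp.2
    have h2 : 0 ≤ ‖h (circ R θ)‖ ^ 2 := by positivity
    apply div_le_div_of_nonneg_right _ hL.le
    exact mul_le_mul_of_nonneg_right ha1 h2

end Pool.Agent.Results.MP_16b0ee_an.LacunaryLogDerivatives
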